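import Pool.Agent.Helper45.N4.CrvEx
import Pool.Agent.Helper23.N4.Quartic

/-!
# The curve has infinitely many points after a finite extension
-/

set_option autoImplicit false

namespace Pool.Agent.Helper45.N4

open Pool.Agent.Helper64.HK Pool.Agent.Helper16.N4

theorem exists_crv {p : ℕ} [Fact p.Prime] (hp : p ≠ 2) {k m : ℕ} {a : Fin (k + 1) → Fin (m + 1)}
    (c : Ix a → ℚ_[p]) (s : Sel4 k m) (x : Un4 k m → ℚ_[p]) (h : Nod c s x)
    (K : IntermediateField ℚ ℚ_[p]) [FiniteDimensional ℚ K] (hc : ∀ e, c e ∈ K)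
    (hx : ∀ i, x i ∈ K) :
    ∃ K' : IntermediateField ℚ ℚ_[p], FiniteDimensional ℚ K' ∧ K ≤ K' ∧
      Crv (K' : Set ℚ_[p]) c s x :=
  exists_crv_of c s x h K hc hx fun q hq hd τ hτ h0 h1 =>
    Pool.Agent.Helper23.N4.quartic_ext hp K q hq hd τ hτ h0 h1

end Pool.Agent.Helper45.N4
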