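import Pool.Agent.Helper16.N4.Cfg
import Pool.Agent.Helper45.HK.NatP

/-!
# Naturality of the system and of the product (curves of genus one)
-/

set_option autoImplicit false

namespace Pool.Agent.Helper45.N4

open MvPolynomial Pool.Agent.Helper64.HK Pool.Agent.Helper24.HK Pool.Agent.Helper16.N4
open Pool.Agent.Helper28.HN (I aff)
open Pool.Agent.Helper94.HK (map_ct map_Xz map_vh map_xh map_Fh map_Ah map_Bh map_Ch map_psh
  map_kah map_th map_qh map_qa map_psP map_detM map_Nx)
open Pool.Agent.Helper45.HK (map_pt map_detVm map_detN map_psD)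

section

variable {k m : ℕ} {a : Fin (k + 1) → Fin (m + 1)} {S S' : Type*} [CommRing S] [CommRing S']
  (f : S →+* S') (c : Ix a → S) (s : Sel4 k m) (x : Un4 k m → S)

theorem map_rd : (fun b => f (rd s x b)) = rd s fun b => f (x b) := by
  funext b
  rcases b with q | _ | q
  · rfl
  · simp only [rd, map_intCast]
  · rfl

theorem map_rd' (b : Un k m) : f (rd s x b) = rd s (fun b => f (x b)) b :=
  congrFun (map_rd f s x) b

theorem map_pt' : (fun j l => f (pt (rd s x) j l)) = pt (rd s fun b => f (x b)) := by
  rw [map_pt, map_rd]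

theorem map_dv : (fun i => f (dv x i)) = dv fun b => f (x b) := by
  funext i
  refine Fin.cases ?_ (fun i => ?_) i
  · exact map_one f
  · rfl

theorem map_dr : (fun i => f (dr x i)) = dr fun b => f (x b) := by
  funext i
  refine Fin.cases ?_ (fun i => ?_) i
  · exact map_zero f
  · exact congrFun (map_dv f x) i

theorem map_pl (t : S) : (fun j l => f (pl s x t j l)) = pl s (fun b => f (x b)) (f t) := by
  unfold pl
  rw [map_ct]
  congr 1
  funext q
  have h : f (dv x q.2) = dv (fun b => f (x b)) q.2 := congrFun (map_dv f x) q.2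
  simp only [map_add, apply_ite f, map_mul, map_zero, h]

theorem map_xq (q : Fin k × Fin (m + 1)) :
    (fun i => f (xq c s x q i)) = xq (fun e => f (c e)) s (fun b => f (x b)) q := by
  unfold xq
  rw [map_xh, map_Xz, map_pt']

theorem map_Eqn4 (i : Un4 k m) :
    f (Eqn4 c s x i) = Eqn4 (fun e => f (c e)) s (fun b => f (x b)) i := by
  cases i with
  | u e =>
    simp only [Eqn4, apply_ite f, map_Fh, map_Ah, map_qh, map_xq, map_pt', map_intCast]
  | z q => simp only [Eqn4, map_psh, map_pt']
  | d i => simp only [Eqn4, map_qh, map_pl, map_dr]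
  | t r => simp only [Eqn4, map_add, map_mul, map_Ah, map_Bh, map_pl]
  | w r => simp only [Eqn4, map_add, map_mul, map_Bh, map_Ch, map_pl]

theorem map_Pa4 : f (Pa4 c s x) = Pa4 (fun e => f (c e)) s (fun b => f (x b)) := by
  simp only [Pa4, map_mul, map_prod, apply_ite f, map_one, map_sub, map_detM, map_detN, map_Xz,
    map_pt', map_kah, map_th, map_psD, map_qh, map_xq, map_detVm, map_rd', map_dr]

theorem map_Pb4 : f (Pb4 c s x) = Pb4 (fun e => f (c e)) s (fun b => f (x b)) := by
  simp only [Pb4, map_mul, map_prod, apply_ite f, map_one, map_sub, map_detM, map_qh, map_pl,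
    map_dr, map_Ah]

end

end Pool.Agent.Helper45.N4
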