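import Pool.Agent.Helper45.N4.Gen
import Pool.Agent.Helper45.N4.Nat

/-!
# `p`-adic configurations near a configuration over a number field (curves of genus one)
-/

set_option autoImplicit false

namespace Pool.Agent.Helper45.N4

open MvPolynomial Finset Pool.Agent.Helper64.HK Pool.Agent.Helper24.HK Pool.Agent.Helper16.N4
open Pool.Agent.Helper28.HN (I aff)

section

variable {k m : ℕ} {a : Fin (k + 1) → Fin (m + 1)} {S T : Type*} [CommRing S] [CommRing T]

theorem eval_Gs4 (c : Ix a → S) (s : Sel4 k m) (x : Un4 k m → S) (i : Un4 k m) :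
    eval x (Gs4 c s i) = Eqn4 c s x i := by
  unfold Gs4
  rw [map_Eqn4]
  simp

theorem eval2_Gs4 (f : S →+* T) (c : Ix a → S) (s : Sel4 k m) (x : Un4 k m → T) (i : Un4 k m) :
    eval₂ f x (Gs4 c s i) = Eqn4 (fun e => f (c e)) s x i := by
  rw [← coe_eval₂Hom]
  unfold Gs4
  rw [map_Eqn4]
  simp

theorem eval_Pa4 (c : Ix a → S) (s : Sel4 k m) (x : Un4 k m → S) :
    eval x (Pa4 (fun e => C (c e)) s X : MvPolynomial (Un4 k m) S) = Pa4 c s x := by
  rw [map_Pa4]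
  simp

theorem eval_Pb4 (c : Ix a → S) (s : Sel4 k m) (x : Un4 k m → S) :
    eval x (Pb4 (fun e => C (c e)) s X : MvPolynomial (Un4 k m) S) = Pb4 c s x := by
  rw [map_Pb4]
  simp

theorem eval2_Pa4 (f : S →+* T) (c : Ix a → S) (s : Sel4 k m) (x : Un4 k m → T) :
    eval₂ f x (Pa4 (fun e => C (c e)) s X : MvPolynomial (Un4 k m) S) =
      Pa4 (fun e => f (c e)) s x := by
  rw [← coe_eval₂Hom, map_Pa4]
  simp

theorem eval2_Pb4 (f : S →+* T) (c : Ix a → S) (s : Sel4 k m) (x : Un4 k m → T) :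
    eval₂ f x (Pb4 (fun e => C (c e)) s X : MvPolynomial (Un4 k m) S) =
      Pb4 (fun e => f (c e)) s x := by
  rw [← coe_eval₂Hom, map_Pb4]
  simp

/-- The right hand sides. -/
def rh4 (s : Sel4 k m) (p : ℕ) : Un4 k m → ℤ
  | .u e => if e = s.S 0 then (p : ℤ) ^ 2 else if e = s.S 3 then p else 0
  | _ => 0

theorem dvd_rh4 (s : Sel4 k m) (p : ℕ) (i : Un4 k m) : (p : ℤ) ∣ rh4 s p i := by
  have h2 : (p : ℤ) ∣ (p : ℤ) ^ 2 := dvd_pow_self _ two_ne_zero
  cases i with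
  | u e =>
    unfold rh4
    dsimp only
    split_ifs
    · exact h2
    · exact dvd_rfl
    · exact dvd_zero _
  | _ => exact dvd_zero _

/-- The values of the system. -/
theorem eqn4_vals (c : Ix a → S) (s : Sel4 k m) (x : Un4 k m → S) (p : ℕ)
    (h : ∀ i, Eqn4 c s x i = (rh4 s p i : ℤ)) :
    (∀ q, psh c q.1.succ (pt (rd s x)) (x (.z q)) = 0) ∧
    Ah c (pt (rd s x)) = (p : S) ^ 2 ∧ Fh c (pt (rd s x)) (s.y : S) = 0 ∧
    Fh c (pt (rd s x)) (x (.z s.j)) = 0 ∧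
    qh c s.m'.1.succ (pt (rd s x)) (xq c s x s.m') (x (.z s.j)) = p := by
  have hne : ∀ i j : Fin 4, i ≠ j → s.S i ≠ s.S j := fun i j hij h => hij (s.hS h)
  refine ⟨fun q => ?_, ?_, ?_, ?_, ?_⟩
  · simpa [Eqn4, rh4] using h (.z q)
  · have := h (.u (s.S 0))
    simpa [Eqn4, rh4] using this
  · have := h (.u (s.S 1))
    simpa [Eqn4, rh4, hne 1 0 (by decide), hne 1 3 (by decide)] using this
  · have := h (.u (s.S 2))
    simpa [Eqn4, rh4, hne 2 0 (by decide), hne 2 1 (by decide), hne 2 3 (by decide)] using this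
  · have := h (.u (s.S 3))
    simpa [Eqn4, rh4, hne 3 0 (by decide), hne 3 1 (by decide), hne 3 2 (by decide)] using this

end

/-- Near a configuration over a number field there are `p`-adic configurations. -/
theorem exists_padic4 {k m : ℕ} {a : Fin (k + 1) → Fin (m + 1)} (s : Sel4 k m) {L : Type} [Field L]
    [NumberField L] (c : Ix a → L) (x : Un4 k m → L) (hE : ∀ i, Eqn4 c s x i = 0)
    (hP : Pp4 c s x ≠ 0)
    (hJ : (Matrix.of fun i j => MvPolynomial.eval x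
      (MvPolynomial.pderiv j (Gs4 c s i))).det ≠ 0) :
    ∃ (p : ℕ) (_ : Fact p.Prime) (φ : L →+* ℚ_[p]) (c' : Ix a → ℤ_[p]) (x' : Un4 k m → ℤ_[p])
      (K : IntermediateField ℚ ℚ_[p]), p ≠ 2 ∧ FiniteDimensional ℚ K ∧ (∀ y, φ y ∈ K) ∧
      (∀ i, (x' i : ℚ_[p]) ∈ K) ∧ (∀ e, (c' e : ℚ_[p]) = φ (c e)) ∧ Cfg4 c' s x' := by
  classical
  obtain ⟨p, hp, φ, c', hp2, hc', H⟩ := exists_near_units c x (Gs4 c s)
    (fun b : Bool => if b then (Pa4 (fun e => C (c e)) s X : MvPolynomial (Un4 k m) L) else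
      (Pb4 (fun e => C (c e)) s X : MvPolynomial (Un4 k m) L))
    (fun i => by rw [eval_Gs4]; exact hE i) hJ
  obtain ⟨x', K, hfin, hφK, hxK, hG, hu⟩ := H (rh4 s p) (dvd_rh4 s p)
  set ψ : ℤ_[p] →+* ℚ_[p] := PadicInt.Coe.ringHom (p := p) with hψ
  have hψi : Function.Injective ψ := Subtype.val_injective
  have hc2 : (fun e => ψ (c' e)) = fun e => φ (c e) := funext hc'
  have hx2 : (fun i => ψ (x' i)) = fun i => (x' i : ℚ_[p]) := rfl
  have hE' : ∀ i, Eqn4 c' s x' i = (rh4 s p i : ℤ) := by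
    intro i
    apply hψi
    rw [map_Eqn4, hc2, hx2, map_intCast, ← hG i, eval2_Gs4]
  obtain ⟨h1, h2, h3, h4, h5⟩ := eqn4_vals c' s x' p hE'
  have hPa : Pa4 c s x ≠ 0 := left_ne_zero_of_mul hP
  have hPb : Pb4 c s x ≠ 0 := right_ne_zero_of_mul hP
  have hua : IsUnit (Pa4 c' s x') := by
    have h6 := (hu true).2.2
    simp only [if_true] at h6
    rw [eval_Pa4, eval2_Pa4] at h6
    rw [PadicInt.isUnit_iff]
    have h7 := h6 hPa
    rw [← hc2, ← hx2, ← map_Pa4] at h7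
    exact h7
  have hub : IsUnit (Pb4 c' s x') := by
    have h6 := (hu false).2.2
    simp only [Bool.false_eq_true, if_false] at h6
    rw [eval_Pb4, eval2_Pb4] at h6
    rw [PadicInt.isUnit_iff]
    have h7 := h6 hPb
    rw [← hc2, ← hx2, ← map_Pb4] at h7
    exact h7
  refine ⟨p, hp, φ, c', x', K, hp2, hfin, hφK, hxK, hc', ⟨h1, ?_, h3, h4, ?_, fun r => ?_,
    fun r => ?_, fun i => ?_, hua, hub⟩⟩
  · rw [h2, norm_pow, PadicInt.norm_p, inv_pow, zpow_neg]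
    norm_cast
  · rw [h5, PadicInt.norm_p, zpow_neg_one]
  · simpa [Eqn4, rh4] using hE' (.t r)
  · simpa [Eqn4, rh4] using hE' (.w r)
  · simpa [Eqn4, rh4] using hE' (.d i)

/-- The conditions on the line, over the field. -/
theorem nod_of_cfg {p : ℕ} [Fact p.Prime] {k m : ℕ} {a : Fin (k + 1) → Fin (m + 1)}
    (c : Ix a → ℤ_[p]) (s : Sel4 k m) (x : Un4 k m → ℤ_[p]) (h : Cfg4 c s x) :
    Nod (fun e => (c e : ℚ_[p])) s fun i => (x i : ℚ_[p]) := by
  set ψ : ℤ_[p] →+* ℚ_[p] := PadicInt.Coe.ringHom (p := p) with hψ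
  have hψi : Function.Injective ψ := Subtype.val_injective
  have hpl : ∀ t : ℤ_[p], pl s (fun i => (x i : ℚ_[p])) (t : ℚ_[p]) =
      fun j l => ψ (pl s x t j l) := fun t => (map_pl ψ s x t).symm
  have hdr : dr (fun i => (x i : ℚ_[p])) = fun i => ψ (dr x i) := (map_dr ψ x).symm
  have hb := h.hPb
  simp only [Pb4, IsUnit.mul_iff] at hb
  obtain ⟨⟨⟨⟨hu1, hu2⟩, hu3⟩, hu4⟩, hu5⟩ := hb
  refine ⟨fun r => ?_, fun r => ?_, fun i => ?_, fun r => ?_, fun r r' hr h0 => ?_, fun r h0 => ?_,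
    ?_, ?_⟩
  · have h1 := congrArg ψ (h.e1 r)
    rw [map_add, map_mul, map_zero, Pool.Agent.Helper94.HK.map_Ah,
      Pool.Agent.Helper94.HK.map_Bh] at h1
    rw [hpl]
    exact h1
  · have h1 := congrArg ψ (h.e2 r)
    rw [map_add, map_mul, map_zero, Pool.Agent.Helper94.HK.map_Ch,
      Pool.Agent.Helper94.HK.map_Bh] at h1
    rw [hpl]
    exact h1
  · have h1 := congrArg ψ (h.e3 i)
    rw [map_zero, Pool.Agent.Helper94.HK.map_qh] at h1
    rw [hpl, hdr]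
    exact h1
  · have h1 := isUnit_of_dvd_unit (Finset.dvd_prod_of_mem _ (mem_univ r)) hu1
    have h2 : ψ (Mx c (pl s x (x (.t r)))).det ≠ 0 := by
      rw [map_ne_zero_iff ψ hψi]
      exact h1.ne_zero
    rw [Pool.Agent.Helper94.HK.map_detM] at h2
    rw [hpl]
    exact h2
  · have h1 := isUnit_of_dvd_unit (Finset.dvd_prod_of_mem _ (mem_univ r)) hu2
    have h2 := isUnit_of_dvd_unit (Finset.dvd_prod_of_mem _ (mem_univ r')) h1
    rw [if_neg hr] at h2
    refine h2.ne_zero (sub_eq_zero.2 (hψi h0))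
  · have h1 := isUnit_of_dvd_unit (Finset.dvd_prod_of_mem _ (mem_univ r)) hu3
    exact h1.ne_zero (hψi (h0.trans (map_zero ψ).symm))
  · have h2 : ψ (Ah c (pl s x (x (.t 0)))) ≠ 0 := by
      rw [map_ne_zero_iff ψ hψi]
      exact hu4.ne_zero
    rw [Pool.Agent.Helper94.HK.map_Ah] at h2
    rw [hpl]
    exact h2
  · have h2 : ψ (qh c s.f.succ (pl s x (x (.t 0))) (dr x) (x (.w 0))) ≠ 0 := by
      rw [map_ne_zero_iff ψ hψi]
      exact hu5.ne_zero
    rw [Pool.Agent.Helper94.HK.map_qh] at h2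
    rw [hpl, hdr]
    exact h2

end Pool.Agent.Helper45.N4
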