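import Pool.Agent.Helper64.HK.Line

/-!
# The bordered determinant: `Bh ^ 2 - Ah * Ch` is `det (Mx) ^ 2` times a determinant
-/

set_option autoImplicit false

namespace Pool.Agent.Helper45.N4

open Finset Function Pool.Agent.Helper64.HK
open Pool.Agent.Helper28.HN (I aff)

/-! ## Linear algebra -/

section linalg

variable {m : ℕ} {R : Type*} [CommRing R]

/-- The exchange of the two blocks of length `m`. -/
def sw (m : ℕ) : Equiv.Perm ((Fin 2 ⊕ Fin m) ⊕ Fin m) where
  toFun
    | .inl (.inl a) => .inl (.inl a)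
    | .inl (.inr b) => .inr b
    | .inr b => .inl (.inr b)
  invFun
    | .inl (.inl a) => .inl (.inl a)
    | .inl (.inr b) => .inr b
    | .inr b => .inl (.inr b)
  left_inv := by rintro ((a | b) | b) <;> rfl
  right_inv := by rintro ((a | b) | b) <;> rfl

/-- The determinant of a bordered matrix of the special form. -/
theorem det_special (P : Matrix (Fin 2 ⊕ Fin m) (Fin 2 ⊕ Fin m) R) (M : Matrix (Fin m) (Fin m) R) :
    ((Matrix.fromBlocks P (Matrix.fromRows (0 : Matrix (Fin 2) (Fin m) R) M.transpose)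
      (Matrix.fromCols (0 : Matrix (Fin m) (Fin 2) R) M) 0).submatrix id (sw m)).det =
      P.toBlocks₁₁.det * M.det ^ 2 := by
  have h : (Matrix.fromBlocks P (Matrix.fromRows (0 : Matrix (Fin 2) (Fin m) R) M.transpose)
      (Matrix.fromCols (0 : Matrix (Fin m) (Fin 2) R) M) 0).submatrix id (sw m) =
      Matrix.fromBlocks (Matrix.fromBlocks P.toBlocks₁₁ 0 P.toBlocks₂₁ M.transpose)
        (Matrix.fromRows P.toBlocks₁₂ P.toBlocks₂₂) 0 M := by
    ext i j
    rcases i with (i | i) | i <;> rcases j with (j | j) | j <;> rfl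
  rw [h, Matrix.det_fromBlocks_zero₂₁, Matrix.det_fromBlocks_zero₁₂, Matrix.det_transpose]
  ring

/-- The bordered matrix. -/
def bm (Q : Matrix (Fin 2 ⊕ Fin m) (Fin 2 ⊕ Fin m) R) (M : Matrix (Fin m) (Fin 2 ⊕ Fin m) R) :
    Matrix ((Fin 2 ⊕ Fin m) ⊕ Fin m) ((Fin 2 ⊕ Fin m) ⊕ Fin m) R :=
  Matrix.fromBlocks Q M.transpose M 0

/-- The transformation with two vectors in the kernel of `M`. -/
theorem det_bm (Q : Matrix (Fin 2 ⊕ Fin m) (Fin 2 ⊕ Fin m) R)
    (M : Matrix (Fin m) (Fin 2 ⊕ Fin m) R) (D : R) (Y : Matrix (Fin m) (Fin 2) R)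
    (hY : M * Matrix.fromRows (D • (1 : Matrix (Fin 2) (Fin 2) R)) Y = 0) :
    D ^ 4 * ((bm Q M).submatrix id (sw m)).det =
      ((Matrix.fromRows (D • (1 : Matrix (Fin 2) (Fin 2) R)) Y).transpose * Q *
        Matrix.fromRows (D • (1 : Matrix (Fin 2) (Fin 2) R)) Y).det * (M.toCols₂).det ^ 2 := by
  set N : Matrix (Fin 2 ⊕ Fin m) (Fin 2 ⊕ Fin m) R :=
    Matrix.fromBlocks (D • (1 : Matrix (Fin 2) (Fin 2) R)) 0 Y 1 with hN
  have hNd : N.det = D ^ 2 := by
    rw [hN, Matrix.det_fromBlocks_zero₁₂, Matrix.det_one, mul_one, Matrix.det_smul, Matrix.det_one,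
      Fintype.card_fin, mul_one]
  have hMN : M * N = Matrix.fromCols (0 : Matrix (Fin m) (Fin 2) R) M.toCols₂ := by
    have h1 : N = Matrix.fromCols (Matrix.fromRows (D • (1 : Matrix (Fin 2) (Fin 2) R)) Y)
        (Matrix.fromRows (0 : Matrix (Fin 2) (Fin m) R) (1 : Matrix (Fin m) (Fin m) R)) := by
      ext i j
      rcases i with i | i <;> rcases j with j | j <;> rfl
    have h2 : M = Matrix.fromCols M.toCols₁ M.toCols₂ := (Matrix.fromCols_toCols M).symm
    have h3 : M * Matrix.fromRows (0 : Matrix (Fin 2) (Fin m) R) (1 : Matrix (Fin m) (Fin m) R) =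
        M.toCols₂ := by
      conv_lhs => rw [h2]
      rw [Matrix.fromCols_mul_fromRows, Matrix.mul_zero, zero_add, Matrix.mul_one]
    rw [h1, Matrix.mul_fromCols, hY, h3]
  set T : Matrix ((Fin 2 ⊕ Fin m) ⊕ Fin m) ((Fin 2 ⊕ Fin m) ⊕ Fin m) R :=
    Matrix.fromBlocks N 0 0 1 with hT
  have hTd : T.det = D ^ 2 := by
    rw [hT, Matrix.det_fromBlocks_zero₁₂, Matrix.det_one, mul_one, hNd]
  have hW : T.transpose * bm Q M * T = Matrix.fromBlocks (N.transpose * Q * N)
      (Matrix.fromRows (0 : Matrix (Fin 2) (Fin m) R) M.toCols₂.transpose)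
      (Matrix.fromCols (0 : Matrix (Fin m) (Fin 2) R) M.toCols₂) 0 := by
    rw [hT, bm, Matrix.fromBlocks_transpose, Matrix.fromBlocks_multiply, Matrix.fromBlocks_multiply]
    simp only [Matrix.transpose_zero, Matrix.transpose_one, Matrix.zero_mul, Matrix.mul_zero,
      Matrix.one_mul, Matrix.mul_one, add_zero, zero_add]
    rw [hMN, ← Matrix.transpose_mul, hMN]
    congr 1
    ext i j
    rcases i with i | i <;> rfl
  have h1 := det_special (N.transpose * Q * N) M.toCols₂
  rw [← hW, Matrix.det_permute'] at h1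
  rw [Matrix.det_permute']
  rw [Matrix.det_mul, Matrix.det_mul, Matrix.det_transpose, hTd] at h1
  have h2 : (N.transpose * Q * N).toBlocks₁₁ =
      (Matrix.fromRows (D • (1 : Matrix (Fin 2) (Fin 2) R)) Y).transpose * Q *
        Matrix.fromRows (D • (1 : Matrix (Fin 2) (Fin 2) R)) Y := by
    ext i j
    simp only [Matrix.toBlocks₁₁, Matrix.of_apply, Matrix.mul_apply, Matrix.transpose_apply]
    refine sum_congr rfl fun x _ => ?_
    have e1 : ∀ x (i : Fin 2), N x (Sum.inl i) =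
        Matrix.fromRows (D • (1 : Matrix (Fin 2) (Fin 2) R)) Y x i := by
      rintro (x | x) i <;> rfl
    simp only [e1]
  rw [← h2, ← h1]
  ring

end linalg

/-! ## The forms -/

section forms

variable {k m : ℕ} {a : Fin (k + 1) → Fin (m + 1)} {S T : Type*} [CommRing S] [CommRing T]

/-- The splitting of the indices of a factor. -/
def ei (m : ℕ) : Fin 2 ⊕ Fin m → I m
  | .inl a => if a = 0 then 0 else 1
  | .inr b => b.succ.succ

theorem sum_ei {A : Type*} [AddCommMonoid A] (F : I m → A) :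
    ∑ x : Fin 2 ⊕ Fin m, F (ei m x) = ∑ i : I m, F i := by
  rw [Fintype.sum_sum_type, Fin.sum_univ_two, Fin.sum_univ_succ, Fin.sum_univ_succ, add_assoc]
  rfl

variable (c : Ix a → S) (X : Fin (k + 1) → I m → S)

/-- The polar form as a linear map in the first vector. -/
noncomputable def Pl (j : Fin (k + 1)) (w : I m → S) : (I m → S) →ₗ[S] S where
  toFun v := Pf c j X v w
  map_add' v v' := by
    have h := Pf_comb_l c j X 1 1 v v' w
    simp only [one_mul] at h
    exact h
  map_smul' α v := Pf_smul_l c j X α v w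

theorem Pf_sum_l (j : Fin (k + 1)) (v w : I m → S) :
    Pf c j X v w = ∑ i, v i * Pf c j X (Pi.single i 1) w := by
  have h : Pf c j X v w = Pl c X j w v := rfl
  rw [h, LinearMap.pi_apply_eq_sum_univ]
  refine sum_congr rfl fun l _ => ?_
  have h2 : (fun i => if l = i then (1 : S) else 0) = Pi.single l 1 := by
    funext i
    by_cases hi : l = i
    · subst hi; simp
    · rw [if_neg hi, Pi.single_eq_of_ne (Ne.symm hi)]
  rw [h2]
  rfl

theorem Pf_sum (j : Fin (k + 1)) (v w : I m → S) :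
    Pf c j X v w = ∑ i, ∑ l, v i * Pf c j X (Pi.single i 1) (Pi.single l 1) * w l := by
  rw [Pf_sum_l]
  refine sum_congr rfl fun i _ => ?_
  rw [Pf_symm, Pf_sum_l, mul_sum]
  refine sum_congr rfl fun l _ => ?_
  rw [Pf_symm]
  ring

/-- The matrix of the polar form in the factor `0`. -/
def Qm : Matrix (Fin 2 ⊕ Fin m) (Fin 2 ⊕ Fin m) S := fun x y =>
  Pf c 0 X (Pi.single (ei m x) 1) (Pi.single (ei m y) 1)

/-- The matrix of the rows in the factor `0`. -/
def Rm : Matrix (Fin m) (Fin 2 ⊕ Fin m) S := fun r x => rf c 0 X r (Pi.single (ei m x) 1)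

/-- The bordered determinant. -/
def bd : S := - ((bm (Qm c X) (Rm c X)).submatrix id (sw m)).det

/-- The two vectors of the line in the factor `0`. -/
noncomputable def Ya (a' : Fin 2) : I m → S := if a' = 0 then Y0 c X else Y1 c X

/-- The two vectors as a matrix. -/
noncomputable def Ym : Matrix (Fin 2 ⊕ Fin m) (Fin 2) S := fun x a' => Ya c X a' (ei m x)

/-- The lower part. -/
noncomputable def Yl : Matrix (Fin m) (Fin 2) S := fun b a' => Ya c X a' b.succ.succ

theorem rows_eq : Matrix.fromRows ((Mx c X).det • (1 : Matrix (Fin 2) (Fin 2) S)) (Yl c X) =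
    Ym c X := by
  ext x a'
  rcases x with x | x
  · rw [Matrix.fromRows_apply_inl]
    fin_cases x <;> fin_cases a' <;> simp [Ym, Ya, ei]
  · rfl

theorem Y_cases {P : (I m → S) → Prop} (h0 : P (Y0 c X)) (h1 : P (Y1 c X)) (a' : Fin 2) :
    P (Ya c X a') := by
  unfold Ya
  split_ifs
  · exact h0
  · exact h1

theorem bd_mul : (Mx c X).det ^ 4 * bd c X =
    (Mx c X).det ^ 2 * (Bh c X ^ 2 - Ah c X * Ch c X) := by
  have h := det_bm (Qm c X) (Rm c X) (Mx c X).det (Yl c X) (by
    rw [rows_eq]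
    ext r a'
    rw [Matrix.mul_apply, Matrix.zero_apply]
    simp only [Rm, Ym]
    rw [sum_ei (fun i => rf c 0 X r (Pi.single i 1) * Ya c X a' i), ← rf_eq_sum]
    exact Y_cases c X (P := fun y => rf c 0 X r y = 0) (rf_Y0 c X r) (rf_Y1 c X r) a')
  rw [rows_eq] at h
  have h2 : (Ym c X).transpose * Qm c X * Ym c X =
      fun a' b' => Pf c 0 X (Ya c X a') (Ya c X b') := by
    ext a' b'
    rw [Matrix.mul_apply, Pf_sum c X 0 (Ya c X a')]
    simp only [Matrix.mul_apply, Matrix.transpose_apply, Qm, Ym, sum_mul]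
    rw [sum_comm]
    rw [← sum_ei (fun i => ∑ l, Ya c X a' i * Pf c 0 X (Pi.single i 1) (Pi.single l 1) *
      Ya c X b' l)]
    refine sum_congr rfl fun x _ => ?_
    rw [← sum_ei (fun l => Ya c X a' (ei m x) * Pf c 0 X (Pi.single (ei m x) 1) (Pi.single l 1) *
      Ya c X b' l)]
  have h3 : (Rm c X).toCols₂ = Mx c X := rfl
  rw [h2, h3, Matrix.det_fin_two] at h
  have h5 : Ya c X 0 = Y0 c X := by simp [Ya]
  have h6 : Ya c X 1 = Y1 c X := by simp [Ya]
  rw [h5, h6, Pf_symm c 0 X (Y1 c X) (Y0 c X)] at h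
  unfold bd Bh Ah Ch
  linear_combination -h

theorem bd_eq [IsDomain S] (h : (Mx c X).det ≠ 0) :
    Bh c X ^ 2 - Ah c X * Ch c X = (Mx c X).det ^ 2 * bd c X := by
  have h1 := bd_mul c X
  have h2 : (Mx c X).det ^ 2 ≠ 0 := pow_ne_zero _ h
  refine mul_left_cancel₀ h2 ?_
  rw [← h1]
  ring

end forms

end Pool.Agent.Helper45.N4
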