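import Pool.Agent.Helper45.N4.Nodes
import Pool.Agent.Helper64.HK.BdDeg

/-!
# The curve over a number field in the `p`-adic numbers
-/

set_option autoImplicit false

namespace Pool.Agent.Helper45.N4

open Finset Pool.Agent.Helper64.HK Pool.Agent.Helper24.HK Pool.Agent.Helper16.N4
open Pool.Agent.Helper28.HN (I aff)

section maps

variable {k m : ℕ} {a : Fin (k + 1) → Fin (m + 1)} {S T : Type*} [CommRing S] [CommRing T]
  (f : S →+* T) (c : Ix a → S) (s : Sel4 k m) (x : Un4 k m → S)

theorem map_mP : (mP c s x).map f = mP (fun e => f (c e)) s fun i => f (x i) := map_M c s x f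

theorem map_dP : (dP c s x).map f = dP (fun e => f (c e)) s fun i => f (x i) := by
  have h : (dP c s x).map f = (Bh (cC c) (pP s x)).map f ^ 2 -
      (Ah (cC c) (pP s x)).map f * (Ch (cC c) (pP s x)).map f := by
    unfold dP
    rw [Polynomial.map_sub, Polynomial.map_mul, Polynomial.map_pow]
    rfl
  rw [h, map_A, map_B, map_C]
  rfl

theorem map_sP : (sP c s x).map f = sP (fun e => f (c e)) s fun i => f (x i) := by
  unfold sP
  rw [Polynomial.map_mul, map_mP, Polynomial.map_prod]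
  simp only [Polynomial.map_sub, Polynomial.map_X, Polynomial.map_C]

end maps

/-- The line `M` in the form of `Helper64.HK.lp`. -/
theorem pP_eq {k m : ℕ} {S : Type*} [CommRing S] (s : Sel4 k m) (x : Un4 k m → S) :
    pP s x = Pool.Agent.Helper64.HK.lp (ct fun q => x (.u q)) s.f.succ (dr x) := by
  have h2 : ∀ i, dv (fun i => Polynomial.C (x i)) i = Polynomial.C (dv x i) := fun i =>
    (congrFun (map_dv Polynomial.C x) i).symm
  unfold pP pl Pool.Agent.Helper64.HK.lp
  funext l
  refine Fin.cases ?_ (fun l => ?_) l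
  · rw [Function.update_of_ne (Fin.succ_ne_zero s.f).symm]
    funext i
    simp [ct]
  · by_cases hl : l = s.f
    · subst hl
      rw [Function.update_self]
      funext i
      refine Fin.cases ?_ (fun i => ?_) i
      · simp [ct, aff, dr]
      · simp [ct, aff, dr, h2]
    · rw [Function.update_of_ne (fun h => hl (Fin.succ_injective _ h))]
      funext i
      refine Fin.cases ?_ (fun i => ?_) i
      · simp [ct, aff]
      · simp [ct, aff, hl]

theorem nodes {k m : ℕ} {a : Fin (k + 1) → Fin (m + 1)} {E : Type*} [Field E] [CharZero E]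
    (c : Ix a → E) (s : Sel4 k m) (x : Un4 k m → E) (h : Nod c s x) :
    ∃ q : Polynomial E, dP c s x = sP c s x ^ 2 * q ∧ q.natDegree ≤ 4 ∧ q.eval (x (.t 0)) = 0 ∧
      q.derivative.eval (x (.t 0)) ≠ 0 := by
  refine nodes_of c s x h (bd (fun e => Polynomial.C (c e)) (pP s x)) (sq_sub _ _) ?_
  rw [pP_eq]
  exact (deg_bd c _ s.f _).trans (by omega)

/-- The conditions on the line descend. -/
theorem nod_of_map {k m : ℕ} {a : Fin (k + 1) → Fin (m + 1)} {K E : Type*} [Field K] [Field E]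
    (f : K →+* E) (c : Ix a → K) (s : Sel4 k m) (x : Un4 k m → K)
    (h : Nod (fun e => f (c e)) s fun i => f (x i)) : Nod c s x := by
  have hi : Function.Injective f := f.injective
  have hpl : ∀ t : K, pl s (fun i => f (x i)) (f t) = fun j l => f (pl s x t j l) :=
    fun t => (map_pl f s x t).symm
  have hdr : dr (fun i => f (x i)) = fun i => f (dr x i) := (map_dr f x).symm
  refine ⟨fun r => ?_, fun r => ?_, fun i => ?_, fun r h0 => ?_, fun r r' hr h0 => ?_,
    fun r h0 => ?_, fun h0 => ?_, fun h0 => ?_⟩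
  · apply hi
    rw [map_add, map_mul, map_zero, Pool.Agent.Helper94.HK.map_Ah,
      Pool.Agent.Helper94.HK.map_Bh, ← hpl]
    exact h.e1 r
  · apply hi
    rw [map_add, map_mul, map_zero, Pool.Agent.Helper94.HK.map_Ch,
      Pool.Agent.Helper94.HK.map_Bh, ← hpl]
    exact h.e2 r
  · apply hi
    rw [map_zero, Pool.Agent.Helper94.HK.map_qh, ← hpl, ← hdr]
    exact h.e3 i
  · refine h.hD r ?_
    rw [hpl, ← Pool.Agent.Helper94.HK.map_detM, h0, map_zero]
  · exact h.ht r r' hr (congrArg f h0)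
  · exact h.h0 r ((congrArg f h0).trans (map_zero f))
  · refine h.hA ?_
    rw [hpl, ← Pool.Agent.Helper94.HK.map_Ah, h0, map_zero]
  · refine h.hq ?_
    rw [hpl, hdr, ← Pool.Agent.Helper94.HK.map_qh, h0, map_zero]

/-- From `nodes` over the field `K` and the extension with infinitely many points. -/
theorem exists_crv_of {p : ℕ} [Fact p.Prime] {k m : ℕ} {a : Fin (k + 1) → Fin (m + 1)}
    (c : Ix a → ℚ_[p]) (s : Sel4 k m) (x : Un4 k m → ℚ_[p]) (h : Nod c s x)
    (K : IntermediateField ℚ ℚ_[p]) (hc : ∀ e, c e ∈ K) (hx : ∀ i, x i ∈ K)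
    (H : ∀ (q : Polynomial ℚ_[p]) (_ : ∀ i, q.coeff i ∈ K) (_ : q.natDegree ≤ 4) (τ : ℚ_[p])
      (_ : τ ∈ K) (_ : q.eval τ = 0) (_ : q.derivative.eval τ ≠ 0),
      ∃ K' : IntermediateField ℚ ℚ_[p], FiniteDimensional ℚ K' ∧ K ≤ K' ∧
        {t : ℚ_[p] | t ∈ (K' : Set ℚ_[p]) ∧
          ∃ w ∈ (K' : Set ℚ_[p]), w ≠ 0 ∧ w ^ 2 = q.eval t}.Infinite) :
    ∃ K' : IntermediateField ℚ ℚ_[p], FiniteDimensional ℚ K' ∧ K ≤ K' ∧
      Crv (K' : Set ℚ_[p]) c s x := by
  set f : K →+* ℚ_[p] := algebraMap K ℚ_[p] with hf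
  let c' : Ix a → K := fun e => ⟨c e, hc e⟩
  let x' : Un4 k m → K := fun i => ⟨x i, hx i⟩
  have hc' : (fun e => f (c' e)) = c := rfl
  have hx' : (fun i => f (x' i)) = x := rfl
  have h' : Nod c' s x' := nod_of_map f c' s x' h
  obtain ⟨q, hq, hd, h0, h1⟩ := nodes c' s x' h'
  have e1 : (q.map f).eval (x (.t 0)) = 0 := by
    have h2 : (q.map f).eval (f (x' (.t 0))) = f (q.eval (x' (.t 0))) :=
      Polynomial.eval_map_apply _ _
    rw [h0, map_zero] at h2
    exact h2
  have e2 : (q.map f).derivative.eval (x (.t 0)) ≠ 0 := by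
    have h2 : (q.derivative.map f).eval (f (x' (.t 0))) = f (q.derivative.eval (x' (.t 0))) :=
      Polynomial.eval_map_apply _ _
    rw [Polynomial.derivative_map]
    intro h3
    exact h1 (f.injective (h2.symm.trans (h3.trans (map_zero f).symm)))
  obtain ⟨K', hfin, hK, hinf⟩ := H (q.map f) (fun i => by
    rw [Polynomial.coeff_map]
    exact (q.coeff i).2) (Polynomial.natDegree_map_le.trans hd) (x (.t 0)) (hx _) e1 e2
  refine ⟨K', hfin, hK, q.map f, ?_, hinf⟩
  have h3 := congrArg (Polynomial.map f) hq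
  rw [map_dP, Polynomial.map_mul, Polynomial.map_pow, map_sP, hc', hx'] at h3
  exact h3

end Pool.Agent.Helper45.N4
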