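import Pool.Agent.Helper45.XN.Near
import Pool.Agent.Helper45.XN.Ball
import Pool.Agent.Helper2.KW.P0a

/-!
# Solutions of the neighbouring systems over the `p`-adic integers

A square system over a number field with invertible Jacobian at a solution; finitely many
polynomials which should become units or non-units.
-/

set_option autoImplicit false

namespace Pool.Agent.Helper45.N4

open MvPolynomial Finset

/-- Near a solution over a number field there are solutions of all neighbouring systems over the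
`p`-adic integers, for one `p`. -/
theorem exists_near_units {ι κ J : Type} [Fintype ι] [DecidableEq ι] [Fintype κ] [Fintype J]
    {L : Type} [Field L] [NumberField L] (c : κ → L) (x : ι → L) (G : ι → MvPolynomial ι L)
    (P : J → MvPolynomial ι L) (hG : ∀ i, eval x (G i) = 0)
    (hJ : (Matrix.of fun i j => eval x (pderiv j (G i))).det ≠ 0) :
    ∃ (p : ℕ) (_ : Fact p.Prime) (φ : L →+* ℚ_[p]) (c' : κ → ℤ_[p]), p ≠ 2 ∧
      (∀ e, (c' e : ℚ_[p]) = φ (c e)) ∧
      ∀ r : ι → ℤ, (∀ i, (p : ℤ) ∣ r i) →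
        ∃ (x' : ι → ℤ_[p]) (K : IntermediateField ℚ ℚ_[p]), FiniteDimensional ℚ K ∧
          (∀ y, φ y ∈ K) ∧ (∀ i, (x' i : ℚ_[p]) ∈ K) ∧
          (∀ i, eval₂ φ (fun b => (x' b : ℚ_[p])) (G i) = r i) ∧
          ∀ j, ‖eval₂ φ (fun b => (x' b : ℚ_[p])) (P j)‖ ≤ 1 ∧
            (‖eval₂ φ (fun b => (x' b : ℚ_[p])) (P j)‖ = 1 ↔ eval x (P j) ≠ 0) := by
  classical
  set Jd : L := (Matrix.of fun i j => eval x (pderiv j (G i))).det with hJd
  let S : Finset L := (univ.image c ∪ univ.image x) ∪ ({Jd} ∪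
    ((univ.biUnion fun i => (G i).support.image fun mo => coeff mo (G i)) ∪
    ((univ.biUnion fun j => (P j).support.image fun mo => coeff mo (P j)) ∪
      univ.image fun j => eval x (P j))))
  obtain ⟨p, hp, φ, hp2, hφ⟩ := Pool.Agent.Helper2.KW.exists_embedding S
  have hS1 : ∀ x ∈ S, ‖φ x‖ ≤ 1 := by
    intro x hx
    by_cases h : x = 0
    · rw [h, map_zero, norm_zero]
      exact zero_le_one
    · exact (hφ x hx h).le
  have hcS : ∀ e, c e ∈ S := fun e =>
    mem_union_left _ (mem_union_left _ (mem_image_of_mem _ (mem_univ e)))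
  have hkS : ∀ i, x i ∈ S := fun i =>
    mem_union_left _ (mem_union_right _ (mem_image_of_mem _ (mem_univ i)))
  have hJS : Jd ∈ S := mem_union_right _ (mem_union_left _ (mem_singleton_self _))
  have hGS : ∀ i mo, ‖φ (coeff mo (G i))‖ ≤ 1 := by
    intro i mo
    by_cases h : mo ∈ (G i).support
    · exact hS1 _ (mem_union_right _ (mem_union_right _ (mem_union_left _
        (mem_biUnion.2 ⟨i, mem_univ i, mem_image_of_mem _ h⟩))))
    · rw [notMem_support_iff.1 h, map_zero, norm_zero]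
      exact zero_le_one
  have hPS : ∀ j mo, ‖φ (coeff mo (P j))‖ ≤ 1 := by
    intro j mo
    by_cases h : mo ∈ (P j).support
    · exact hS1 _ (mem_union_right _ (mem_union_right _ (mem_union_right _ (mem_union_left _
        (mem_biUnion.2 ⟨j, mem_univ j, mem_image_of_mem _ h⟩)))))
    · rw [notMem_support_iff.1 h, map_zero, norm_zero]
      exact zero_le_one
  have hPe : ∀ j, eval x (P j) ∈ S := fun j => mem_union_right _ (mem_union_right _
    (mem_union_right _ (mem_union_right _ (mem_image_of_mem _ (mem_univ j)))))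
  set ψ : ℤ_[p] →+* ℚ_[p] := PadicInt.Coe.ringHom (p := p) with hψ
  have hψn : ∀ x : ℤ_[p], ‖ψ x‖ = ‖x‖ := fun x => rfl
  let c' : κ → ℤ_[p] := fun e => ⟨φ (c e), hS1 _ (hcS e)⟩
  let k1 : ι → ℤ_[p] := fun i => ⟨φ (x i), hS1 _ (hkS i)⟩
  choose P' hP' using fun j => Pool.Agent.Helper45.XN.exists_lift (map φ (P j))
    (fun mo => by rw [coeff_map]; exact hPS j mo)
  have hev : ∀ (b : ι → ℤ_[p]) (j : J),
      ψ (eval b (P' j)) = eval₂ φ (fun i => (b i : ℚ_[p])) (P j) := by
    intro b j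
    have h1 : ψ (eval b (P' j)) = eval (fun i => ψ (b i)) (map ψ (P' j)) := by
      rw [eval_map]
      have := eval₂_comp_left ψ (RingHom.id ℤ_[p]) b (P' j)
      simpa [Function.comp_def, eval₂_id] using this
    rw [h1, hP', eval_map]
    rfl
  have hevx : ∀ j, eval₂ φ (fun i => (k1 i : ℚ_[p])) (P j) = φ (eval x (P j)) := by
    intro j
    have := eval₂_comp_left φ (RingHom.id L) x (P j)
    simpa [Function.comp_def, eval₂_id] using this.symm
  refine ⟨p, hp, φ, c', hp2, fun e => rfl, fun r hr => ?_⟩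
  have hrt : ∀ i : ι, ‖φ ((r i : ℤ) : L)‖ < 1 := by
    intro i
    rw [map_intCast]
    exact (Padic.norm_intCast_lt_one_iff).2 (hr i)
  obtain ⟨k2, K', hfin, hφK, hk2K, hk2, hk2k, -⟩ := Pool.Agent.Helper45.XN.exists_near φ
    G hGS x (fun i => hS1 _ (hkS i)) (fun i => ((r i : ℤ) : L))
    (fun i => by
      rw [hG, zero_sub, map_neg, norm_neg]
      exact hrt _) (hφ _ hJS hJ)
  have hk2n : ∀ i, ‖k2 i‖ ≤ 1 := by
    intro i
    have h4 : k2 i = (k2 i - φ (x i)) + φ (x i) := by ring
    rw [h4]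
    exact (IsUltrametricDist.norm_add_le_max _ _).trans (max_le (hk2k i).le (hS1 _ (hkS i)))
  let k' : ι → ℤ_[p] := fun i => ⟨k2 i, hk2n i⟩
  have hkk : ‖k' - k1‖ < 1 := (pi_norm_lt_iff one_pos).2 fun i => hk2k i
  refine ⟨k', K', hfin, hφK, hk2K, fun i => ?_, fun j => ⟨?_, ?_⟩⟩
  · have h4 := hk2 i
    rw [map_intCast] at h4
    exact h4
  · rw [← hev, hψn]
    exact PadicInt.norm_le_one _
  · have h4 := (Pool.Agent.Helper45.XN.norm_eval_sub_le (P' j) k' k1).trans_lt hkk
    have h5 : ‖eval k1 (P' j)‖ = 1 ↔ eval x (P j) ≠ 0 := by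
      rw [← hψn, hev, hevx]
      constructor
      · intro h6 h7
        rw [h7, map_zero, norm_zero] at h6
        exact zero_ne_one h6
      · exact hφ _ (hPe j)
    rw [← hev, hψn, ← h5]
    obtain ⟨u, hu⟩ : ∃ u, u = eval k' (P' j) := ⟨_, rfl⟩
    obtain ⟨v, hv⟩ : ∃ v, v = eval k1 (P' j) := ⟨_, rfl⟩
    rw [← hu, ← hv] at h4 ⊢
    constructor
    · intro h5
      have h6 : v = u - (u - v) := by ring
      rw [h6, sub_eq_add_neg, IsUltrametricDist.norm_add_eq_max_of_norm_ne_norm (by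
        rw [norm_neg, h5]
        exact h4.ne'), norm_neg, h5, max_eq_left h4.le]
    · intro h5
      have h6 : u = v + (u - v) := by ring
      rw [h6, IsUltrametricDist.norm_add_eq_max_of_norm_ne_norm (by
        rw [h5]
        exact h4.ne'), h5, max_eq_left h4.le]

end Pool.Agent.Helper45.N4
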