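import Pool.Agent.Helper16.N4.Crv
import Pool.Agent.Helper45.N4.Nat
import Pool.Agent.Helper94.HK.Fin
import Pool.Agent.Helper64.HK.Line

/-!
# The nodes of the double cover of the line
-/

set_option autoImplicit false

namespace Pool.Agent.Helper45.N4

open Finset Pool.Agent.Helper64.HK Pool.Agent.Helper24.HK Pool.Agent.Helper16.N4
open Pool.Agent.Helper28.HN (I aff)
open Pool.Agent.Helper94.HK (map_Fh map_Ah map_Bh map_Ch map_qh map_detM)

/-! ## Polynomial coordinates -/

section pol

variable {k m : ℕ} {a : Fin (k + 1) → Fin (m + 1)} {S : Type*} [CommRing S]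

/-- The coefficients as constants. -/
noncomputable def cC (c : Ix a → S) : Ix a → Polynomial S := fun e => Polynomial.C (c e)

variable (c : Ix a → S) (s : Sel4 k m) (x : Un4 k m → S)

theorem eval_pP (t : S) : (fun l i => (pP s x l i).eval t) = pl s x t := by
  have h := map_pl (Polynomial.evalRingHom t) s (fun i => Polynomial.C (x i)) Polynomial.X
  simp only [Polynomial.coe_evalRingHom, Polynomial.eval_C, Polynomial.eval_X] at h
  exact h

theorem eval_cC (t : S) : (fun e => (cC c e).eval t) = c := by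
  funext e
  simp [cC]

theorem eval_A (t : S) : (Ah (cC c) (pP s x)).eval t = Ah c (pl s x t) := by
  have h := map_Ah (Polynomial.evalRingHom t) (cC c) (pP s x)
  simp only [Polynomial.coe_evalRingHom] at h
  rw [h, eval_cC, eval_pP]

theorem eval_B (t : S) : (Bh (cC c) (pP s x)).eval t = Bh c (pl s x t) := by
  have h := map_Bh (Polynomial.evalRingHom t) (cC c) (pP s x)
  simp only [Polynomial.coe_evalRingHom] at h
  rw [h, eval_cC, eval_pP]

theorem eval_C (t : S) : (Ch (cC c) (pP s x)).eval t = Ch c (pl s x t) := by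
  have h := map_Ch (Polynomial.evalRingHom t) (cC c) (pP s x)
  simp only [Polynomial.coe_evalRingHom] at h
  rw [h, eval_cC, eval_pP]

theorem eval_M (t : S) : (Mx (cC c) (pP s x)).det.eval t = (Mx c (pl s x t)).det := by
  have h := map_detM (Polynomial.evalRingHom t) (cC c) (pP s x)
  simp only [Polynomial.coe_evalRingHom] at h
  rw [h, eval_cC, eval_pP]

theorem map_cC {T : Type*} [CommRing T] (f : S →+* T) :
    (fun e => (cC c e).map f) = cC fun e => f (c e) := by
  funext e
  simp [cC]

theorem map_pP {T : Type*} [CommRing T] (f : S →+* T) :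
    (fun l i => (pP s x l i).map f) = pP s fun i => f (x i) := by
  have h := map_pl (Polynomial.mapRingHom f) s (fun i => Polynomial.C (x i)) Polynomial.X
  simp only [Polynomial.coe_mapRingHom, Polynomial.map_C, Polynomial.map_X] at h
  exact h

theorem map_A {T : Type*} [CommRing T] (f : S →+* T) : (Ah (cC c) (pP s x)).map f =
    Ah (cC fun e => f (c e)) (pP s fun i => f (x i)) := by
  have h := map_Ah (Polynomial.mapRingHom f) (cC c) (pP s x)
  simp only [Polynomial.coe_mapRingHom] at h
  rw [h, map_cC, map_pP]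

theorem map_B {T : Type*} [CommRing T] (f : S →+* T) : (Bh (cC c) (pP s x)).map f =
    Bh (cC fun e => f (c e)) (pP s fun i => f (x i)) := by
  have h := map_Bh (Polynomial.mapRingHom f) (cC c) (pP s x)
  simp only [Polynomial.coe_mapRingHom] at h
  rw [h, map_cC, map_pP]

theorem map_C {T : Type*} [CommRing T] (f : S →+* T) : (Ch (cC c) (pP s x)).map f =
    Ch (cC fun e => f (c e)) (pP s fun i => f (x i)) := by
  have h := map_Ch (Polynomial.mapRingHom f) (cC c) (pP s x)
  simp only [Polynomial.coe_mapRingHom] at h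
  rw [h, map_cC, map_pP]

theorem map_M {T : Type*} [CommRing T] (f : S →+* T) : (Mx (cC c) (pP s x)).det.map f =
    (Mx (cC fun e => f (c e)) (pP s fun i => f (x i))).det := by
  have h := map_detM (Polynomial.mapRingHom f) (cC c) (pP s x)
  simp only [Polynomial.coe_mapRingHom] at h
  rw [h, map_cC, map_pP]

/-- The line with a shifted parameter. -/
theorem pP_shift (t : S) : (fun l i => (pP s x l i).comp (Polynomial.X + Polynomial.C t)) =
    fun l i => Polynomial.C (pl s x t l i) +
      if l = s.f.succ then Polynomial.X * Polynomial.C (dr x i) else 0 := by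
  have h := map_pl (Polynomial.compRingHom (Polynomial.X + Polynomial.C t)) s
    (fun i => Polynomial.C (x i)) Polynomial.X
  simp only [Polynomial.coe_compRingHom_apply, Polynomial.C_comp, Polynomial.X_comp] at h
  have h1 : (fun l i => (pP s x l i).comp (Polynomial.X + Polynomial.C t)) =
      pl s (fun i => Polynomial.C (x i)) (Polynomial.X + Polynomial.C t) := h
  rw [h1]
  have h2 : ∀ i, dv (fun i => Polynomial.C (x i)) i = Polynomial.C (dv x i) := fun i =>
    (congrFun (map_dv Polynomial.C x) i).symm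
  funext l i
  refine Fin.cases ?_ (fun l => ?_) l
  · rw [if_neg (Fin.succ_ne_zero _).symm, add_zero]
    simp [pl, ct]
  · refine Fin.cases ?_ (fun i => ?_) i
    · simp [pl, ct, aff, dr]
    · simp only [pl, ct, Fin.cons_succ, aff, Fin.succ_inj, dr, h2]
      split_ifs
      · simp only [map_add, map_mul]
        ring
      · simp

theorem eval_der (F : Polynomial S) (t : S) :
    ((F.comp (Polynomial.X + Polynomial.C t)).derivative).eval 0 = F.derivative.eval t := by
  rw [Polynomial.derivative_comp]
  simp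

/-- The derivative of the form on the line. -/
theorem der_F (t : S) : ∃ d : S, ∀ z, (Mx c (pl s x t)).det *
    ((Ah (cC c) (pP s x)).derivative.eval t * z ^ 2 +
      2 * (Bh (cC c) (pP s x)).derivative.eval t * z + (Ch (cC c) (pP s x)).derivative.eval t) =
    qh c s.f.succ (pl s x t) (dr x) z + 2 * d * Fh c (pl s x t) z := by
  obtain ⟨d, hd, -⟩ := Pool.Agent.Helper94.HK.Fr.diff_F c s.f (pl s x t) (dr x)
  refine ⟨d, fun z => ?_⟩
  rw [← hd z, ← pP_shift s x t]
  congr 1
  have h := map_Fh (Polynomial.compRingHom (Polynomial.X + Polynomial.C t)) (cC c) (pP s x)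
    (Polynomial.C z)
  simp only [Polynomial.coe_compRingHom_apply, Polynomial.C_comp] at h
  have h2 : (fun e => (cC c e).comp (Polynomial.X + Polynomial.C t)) =
      fun e => Polynomial.C (c e) := by
    funext e
    simp [cC]
  rw [h2] at h
  rw [← h, eval_der, Fh_eq]
  simp [Polynomial.derivative_pow]

end pol

/-! ## Double roots -/

section roots

variable {E : Type*} [Field E]

theorem sq_dvd {g : Polynomial E} {t : E} (h0 : g.eval t = 0) (h1 : g.derivative.eval t = 0) :
    (Polynomial.X - Polynomial.C t) ^ 2 ∣ g := by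
  obtain ⟨h, hh⟩ := Polynomial.dvd_iff_isRoot.2 h0
  subst hh
  have h2 : h.eval t = 0 := by simpa using h1
  obtain ⟨h', rfl⟩ := Polynomial.dvd_iff_isRoot.2 h2
  exact ⟨h', by ring⟩

/-- The polynomial without its double roots. -/
theorem split_nodes {n : ℕ} (t : Fin (n + 1) → E) (ht : ∀ r r', r ≠ r' → t r ≠ t r')
    (A B C D g : Polynomial E) (w : Fin (n + 1) → E) (hg : B ^ 2 - A * C = D ^ 2 * g)
    (hdeg : g.natDegree ≤ 2 * n + 4) (hD : ∀ r, D.eval (t r) ≠ 0) (hA : A.eval (t 0) ≠ 0)
    (e1 : ∀ r, A.eval (t r) * w r + B.eval (t r) = 0)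
    (e2 : ∀ r, B.eval (t r) * w r + C.eval (t r) = 0)
    (e3 : ∀ i : Fin n, A.derivative.eval (t i.succ) * w i.succ ^ 2 +
      2 * B.derivative.eval (t i.succ) * w i.succ + C.derivative.eval (t i.succ) = 0)
    (e4 : A.derivative.eval (t 0) * w 0 ^ 2 +
      2 * B.derivative.eval (t 0) * w 0 + C.derivative.eval (t 0) ≠ 0) :
    ∃ q : Polynomial E,
      B ^ 2 - A * C = (D * ∏ i : Fin n, (Polynomial.X - Polynomial.C (t i.succ))) ^ 2 * q ∧
      q.natDegree ≤ 4 ∧ q.eval (t 0) = 0 ∧ q.derivative.eval (t 0) ≠ 0 := by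
  have hB : ∀ r, B.eval (t r) = - (A.eval (t r) * w r) := fun r => by
    linear_combination e1 r
  have hC : ∀ r, C.eval (t r) = A.eval (t r) * w r ^ 2 := fun r => by
    linear_combination e2 r - w r * e1 r
  have hg0 : ∀ r, g.eval (t r) = 0 := by
    intro r
    have h := congrArg (Polynomial.eval (t r)) hg
    simp only [Polynomial.eval_sub, Polynomial.eval_mul, Polynomial.eval_pow, hB, hC] at h
    have h2 : D.eval (t r) ^ 2 * g.eval (t r) = 0 := by rw [← h]; ring
    exact (mul_eq_zero.1 h2).resolve_left (pow_ne_zero _ (hD r))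
  have hg1 : ∀ r, D.eval (t r) ^ 2 * g.derivative.eval (t r) = - A.eval (t r) *
      (A.derivative.eval (t r) * w r ^ 2 + 2 * B.derivative.eval (t r) * w r +
        C.derivative.eval (t r)) := by
    intro r
    have h := congrArg (fun P => (Polynomial.derivative P).eval (t r)) hg
    simp only [Polynomial.derivative_sub, Polynomial.derivative_mul, Polynomial.derivative_pow,
      Polynomial.eval_sub, Polynomial.eval_mul, Polynomial.eval_add, Polynomial.eval_pow, hB, hC,
      hg0 r, Polynomial.eval_C, Nat.cast_ofNat] at h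
    linear_combination -h
  have hdiv : (∏ i : Fin n, (Polynomial.X - Polynomial.C (t i.succ))) ^ 2 ∣ g := by
    rw [← Finset.prod_pow]
    refine Finset.prod_dvd_of_coprime ?_ fun i _ => sq_dvd (hg0 _) ?_
    · intro i _ j _ hij
      refine IsCoprime.pow ?_
      refine Polynomial.isCoprime_X_sub_C_of_isUnit_sub ?_
      exact (sub_ne_zero.2 (ht _ _ fun h => hij (Fin.succ_injective _ h))).isUnit
    · have h := hg1 i.succ
      rw [e3, mul_zero] at h
      exact (mul_eq_zero.1 h).resolve_left (pow_ne_zero _ (hD _))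
  obtain ⟨q, hq⟩ := hdiv
  set Q : Polynomial E := ∏ i : Fin n, (Polynomial.X - Polynomial.C (t i.succ)) with hQ
  have hQm : Q.Monic := Polynomial.monic_prod_of_monic _ _ fun i _ => Polynomial.monic_X_sub_C _
  have hQ0 : Q.eval (t 0) ≠ 0 := by
    rw [hQ, Polynomial.eval_prod]
    refine Finset.prod_ne_zero_iff.2 fun i _ => ?_
    simp only [Polynomial.eval_sub, Polynomial.eval_X, Polynomial.eval_C]
    exact sub_ne_zero.2 (ht _ _ (Fin.succ_ne_zero i).symm)
  have hq0 : q.eval (t 0) = 0 := by
    have h := hg0 0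
    rw [hq, Polynomial.eval_mul, Polynomial.eval_pow] at h
    exact (mul_eq_zero.1 h).resolve_left (pow_ne_zero _ hQ0)
  refine ⟨q, ?_, ?_, hq0, ?_⟩
  · rw [hg, hq]
    ring
  · by_cases hqz : q = 0
    · rw [hqz, Polynomial.natDegree_zero]
      exact Nat.zero_le _
    · have h1 : g.natDegree = 2 * n + q.natDegree := by
        rw [hq, Polynomial.Monic.natDegree_mul' (hQm.pow 2) hqz, hQm.natDegree_pow, hQ,
          Polynomial.natDegree_prod_of_monic _ _ fun i _ => Polynomial.monic_X_sub_C _]
        simp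
      omega
  · intro h
    have h1 := hg1 0
    have h2 : g.derivative.eval (t 0) = 0 := by
      rw [hq]
      simp only [Polynomial.derivative_mul, Polynomial.eval_add, Polynomial.eval_mul, hq0, h]
      ring
    rw [h2, mul_zero, eq_comm] at h1
    rcases mul_eq_zero.1 h1 with h3 | h3
    · exact hA (neg_eq_zero.1 h3)
    · exact e4 h3

end roots

/-! ## The nodes -/

/-- From the divisibility. -/
theorem nodes_of {k m : ℕ} {a : Fin (k + 1) → Fin (m + 1)} {E : Type*} [Field E]
    (c : Ix a → E) (s : Sel4 k m) (x : Un4 k m → E) (h : Nod c s x) (g : Polynomial E)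
    (hg : dP c s x = mP c s x ^ 2 * g) (hdeg : g.natDegree ≤ 2 * m + 4) :
    ∃ q : Polynomial E, dP c s x = sP c s x ^ 2 * q ∧ q.natDegree ≤ 4 ∧ q.eval (x (.t 0)) = 0 ∧
      q.derivative.eval (x (.t 0)) ≠ 0 := by
  have hF : ∀ r, Fh c (pl s x (x (.t r))) (x (.w r)) = 0 := by
    intro r
    rw [Fh_eq]
    linear_combination x (.w r) * h.e1 r + h.e2 r
  have hder : ∀ r, (Mx c (pl s x (x (.t r)))).det *
      ((Ah (cC c) (pP s x)).derivative.eval (x (.t r)) * x (.w r) ^ 2 +
        2 * (Bh (cC c) (pP s x)).derivative.eval (x (.t r)) * x (.w r) +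
          (Ch (cC c) (pP s x)).derivative.eval (x (.t r))) =
      qh c s.f.succ (pl s x (x (.t r))) (dr x) (x (.w r)) := by
    intro r
    obtain ⟨d, hd⟩ := der_F c s x (x (.t r))
    rw [hd, hF, mul_zero, add_zero]
  refine split_nodes (fun r => x (.t r)) h.ht (Ah (cC c) (pP s x)) (Bh (cC c) (pP s x))
    (Ch (cC c) (pP s x)) (mP c s x) g (fun r => x (.w r)) hg hdeg (fun r => ?_) ?_ (fun r => ?_)
    (fun r => ?_) (fun i => ?_) ?_
  · have h1 := eval_M c s x (x (.t r))
    rw [show (mP c s x).eval (x (.t r)) = _ from h1]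
    exact h.hD r
  · rw [eval_A]
    exact h.hA
  · rw [eval_A, eval_B]
    exact h.e1 r
  · rw [eval_B, eval_C]
    exact h.e2 r
  · have h1 := hder i.succ
    rw [h.e3] at h1
    exact (mul_eq_zero.1 h1).resolve_left (h.hD _)
  · intro h0
    have h1 := hder 0
    rw [h0, mul_zero] at h1
    exact h.hq h1.symm

end Pool.Agent.Helper45.N4
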